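import Mathlib
import Pool.Agent.Helper99.SZ.Stmts3
import Pool.Agent.Helper99.BK.Stmts

set_option autoImplicit false

namespace Pool.Helper99.SZ

open NumberField

theorem st_AD3 (hAD1 : ST_AD1) (hCHA : ST_CHA) (hSHA : ST_SHA) (hAN6 : BK.ST_AN6) : ST_AD3 := by
  intro n v K Lc t hv V hV J hJ hK hLc ht z hz c ω w Z1 Y G T' hZ1 hY hG hT' hzb hY1 hδ hGt
  obtain ⟨j1, d, e, he, hid⟩ := hSHA n v hv V hV J hJ c
  have he' : ∀ j, ‖((e j : ℝ) : ℂ)‖ ≤ 1 := by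
    intro j; rw [Complex.norm_real, Real.norm_eq_abs]; exact he j
  obtain ⟨β, hβ, hβ2⟩ := hCHA v K j1 (fun j => ((e j : ℝ) : ℂ)) he'
  -- the new variable
  let y : Sx v K × Fin Lc → ℝ := fun r =>
    (z r (J j1) : ℝ) - ∑ j ∈ Finset.univ.erase j1, e j * (z r (J j) : ℝ)
  have hyd : ∀ r, ∑ i, c i * (z r i : ℝ) = d * y r := fun r => hid (z r) (hz r)
  have hv1 : (1 : ℝ) ≤ v := by exact_mod_cast hv
  have hyb : ∀ r, |y r| ≤ v * Z1 := by
    intro r
    have h1 : |∑ j ∈ Finset.univ.erase j1, e j * (z r (J j) : ℝ)| ≤ ((v : ℝ) - 1) * Z1 := by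
      refine le_trans (Finset.abs_sum_le_sum_abs _ _) ?_
      refine le_trans (Finset.sum_le_sum (g := fun _ => Z1) ?_) ?_
      · intro j _
        rw [abs_mul]
        calc |e j| * |((z r (J j) : ℤ) : ℝ)| ≤ 1 * Z1 :=
              mul_le_mul (he j) (hzb r (J j)) (abs_nonneg _) (by norm_num)
          _ = Z1 := one_mul _
      · rw [Finset.sum_const, Finset.card_erase_of_mem (Finset.mem_univ _), Finset.card_univ,
          Fintype.card_fin, nsmul_eq_mul, Nat.cast_sub hv]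
        simp
    have h2 := hzb r (J j1)
    calc |y r| ≤ |((z r (J j1) : ℤ) : ℝ)| + |∑ j ∈ Finset.univ.erase j1, e j * (z r (J j) : ℝ)| :=
          abs_sub _ _
      _ ≤ Z1 + ((v : ℝ) - 1) * Z1 := add_le_add h2 h1
      _ = v * Z1 := by ring
  let Mr : Matrix (Sx v K × Fin Lc) (Sx v K × Fin Lc) ℂ := Matrix.of (fun r j =>
        (((y r : ℝ) : ℂ) ^ (j.1.1 j1 : ℕ) *
          ∏ i ∈ Finset.univ.erase j1, ((z r (J i) : ℤ) : ℂ) ^ (j.1.1 i : ℕ)) *
          (Complex.exp (((j.2 : ℕ) : ℂ) * ((((d : ℝ) : ℂ) * ω) * ((y r : ℝ) : ℂ))) *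
            (1 + (Complex.exp (((j.2 : ℕ) : ℂ) * w r) - 1))))
  let Bm : Matrix (Sx v K × Fin Lc) (Sx v K × Fin Lc) ℂ := Matrix.of (fun k' k =>
    if k'.2 = k.2 then β k.1 k'.1 else 0)
  have hM : (Matrix.of (fun r j : Sx v K × Fin Lc => (∏ i, ((z r (J i) : ℤ) : ℂ) ^ (j.1.1 i : ℕ)) *
        Complex.exp (((∑ i, c i * (z r i : ℝ) : ℝ) : ℂ) * ω + w r) ^ (j.2 : ℕ))) = Mr * Bm := by
    ext r j
    rw [Matrix.mul_apply, Fintype.sum_prod_type]
    have h1 := hβ2 (fun i => ((z r (J i) : ℤ) : ℂ)) ((y r : ℝ) : ℂ) (by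
      simp only [y]
      push_cast
      ring) j.1
    rw [Matrix.of_apply, h1, Finset.sum_mul]
    refine Finset.sum_congr rfl fun k' _ => ?_
    rw [Finset.sum_eq_single j.2]
    · simp only [Mr, Bm, Matrix.of_apply, if_true]
      have h2 : Complex.exp (((∑ i, c i * (z r i : ℝ) : ℝ) : ℂ) * ω + w r) ^ (j.2 : ℕ) =
          Complex.exp (((j.2 : ℕ) : ℂ) * ((((d : ℝ) : ℂ) * ω) * ((y r : ℝ) : ℂ))) *
            Complex.exp (((j.2 : ℕ) : ℂ) * w r) := by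
        rw [hyd r, ← Complex.exp_nat_mul, ← Complex.exp_add]
        congr 1
        push_cast
        ring
      rw [h2]
      ring
    · intro l _ hl
      simp only [Bm, Matrix.of_apply]
      rw [if_neg hl, mul_zero]
    · intro h; exact absurd (Finset.mem_univ _) h
  have hX1 : (1 : ℝ) ≤ v * Z1 := by nlinarith
  have hcard0 : 0 ≤ (Fintype.card (Sx v K × Fin Lc) : ℝ) := Nat.cast_nonneg _
  have h1 := hAD1 v K Lc t j1 hK hLc ht (fun r => ((y r : ℝ) : ℂ))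
    (fun r i => ((z r (J i) : ℤ) : ℂ)) (((d : ℝ) : ℂ) * ω)
    (fun r l => Complex.exp (((l : ℕ) : ℂ) * w r) - 1) (v * Z1) Z1 Y G T' hX1 hZ1 hY hG
    (fun r => by rw [Complex.norm_real, Real.norm_eq_abs]; exact hyb r)
    (fun r i => by
      rw [Complex.norm_intCast]; exact hzb r (J i))
    (fun r => by
      have h2 := hY1 r
      rw [hyd r] at h2
      have h3 : ((d : ℝ) : ℂ) * ω * ((y r : ℝ) : ℂ) = ((d * y r : ℝ) : ℂ) * ω := by
        push_cast; ring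
      change ‖((d : ℝ) : ℂ) * ω * ((y r : ℝ) : ℂ)‖ * Real.exp G ≤ Y
      rw [h3]; exact h2)
    (fun r l => hδ r l) hT' hGt
  have hvK : (1 : ℝ) ≤ (v : ℝ) ^ K := one_le_pow₀ hv1
  have h2 := hAN6 (Sx v K × Fin Lc) Bm ((v : ℝ) ^ K) (by
    intro p j
    simp only [Bm, Matrix.of_apply]
    split_ifs
    · exact hβ _ _
    · rw [norm_zero]; linarith)
  rw [hM, Matrix.det_mul, norm_mul]
  refine le_trans (mul_le_mul h1 h2 (norm_nonneg _) (by positivity)) (le_of_eq ?_)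
  have e1 : ((v : ℝ) ^ (2 * K) * Z1 ^ (2 * K) * Real.exp (Lc * Y)) =
      ((v * Z1) ^ K * Z1 ^ K * Real.exp (Lc * Y)) * (v : ℝ) ^ K := by
    rw [two_mul, pow_add, pow_add, mul_pow]; ring
  rw [e1, mul_pow _ ((v : ℝ) ^ K)]
  ring

end Pool.Helper99.SZ
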