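import Mathlib
import Pool.Agent.Helper99.SZ.Stmts3

set_option autoImplicit false

namespace Pool.Helper99.SZ

open NumberField

lemma arr_nrm_neg {n : ℕ} (nrm : ℤ × (Fin n → ℤ) → ℝ)
    (hs : ∀ (k : ℤ) a, nrm (k • a) = |(k : ℝ)| * nrm a) (a : ℤ × (Fin n → ℤ)) :
    nrm (-a) = nrm a := by
  have h := hs (-1) a
  rw [neg_one_zsmul] at h
  rw [h]; norm_num

lemma arr_y {L : Type} [Field L] [NumberField L] {n : ℕ} (φ : L →+* ℂ) (g0 : L)
    (g : Fin n → L) (c : Fin n → ℝ) (lam0 : ℂ) (h0 : Complex.exp lam0 = φ g0)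
    (hc : ∀ i, Complex.exp (c i : ℂ) = φ (g i)) (a : ℤ × (Fin n → ℤ)) :
    φ (g0 ^ a.1 * ∏ i, g i ^ (a.2 i)) =
      Complex.exp ((a.1 : ℂ) * lam0 + ((∑ i, c i * (a.2 i : ℝ) : ℝ) : ℂ)) := by
  rw [map_mul, map_zpow₀, map_prod, Complex.exp_add, Complex.exp_int_mul, h0]
  congr 1
  push_cast
  rw [Complex.exp_sum]
  refine Finset.prod_congr rfl fun i _ => ?_
  rw [map_zpow₀, ← hc i, ← Complex.exp_int_mul]
  congr 1
  ring

lemma arr_yle {L : Type} [Field L] [NumberField L] {n : ℕ} (φ : L →+* ℂ) (g0 : L)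
    (g : Fin n → L) (nrm : ℤ × (Fin n → ℤ) → ℝ) (G Z : ℝ) (hLD : LD L n g0 g nrm G Z)
    (c : Fin n → ℝ) (lam0 : ℂ) (h0 : Complex.exp lam0 = φ g0) (hl : ‖lam0‖ ≤ 1)
    (hc : ∀ i, Complex.exp (c i : ℂ) = φ (g i)) (a : ℤ × (Fin n → ℤ)) :
    ∑ i, c i * (a.2 i : ℝ) ≤ 2 * nrm a := by
  have h1 := hLD.conj a φ
  rw [arr_y φ g0 g c lam0 h0 hc a, Complex.norm_exp, Real.exp_le_exp] at h1
  have h2 : ((a.1 : ℂ) * lam0 + ((∑ i, c i * (a.2 i : ℝ) : ℝ) : ℂ)).re =
      (a.1 : ℝ) * lam0.re + ∑ i, c i * (a.2 i : ℝ) := by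
    rw [Complex.add_re, Complex.ofReal_re, Complex.mul_re]
    simp
  rw [h2] at h1
  have h3 : |(a.1 : ℝ) * lam0.re| ≤ nrm a := by
    rw [abs_mul]
    calc |(a.1 : ℝ)| * |lam0.re| ≤ |(a.1 : ℝ)| * 1 :=
          mul_le_mul_of_nonneg_left (le_trans (Complex.abs_re_le_norm _) hl) (abs_nonneg _)
      _ = |(a.1 : ℝ)| := mul_one _
      _ ≤ nrm a := hLD.co0 a
  have h4 := (abs_le.mp h3).1
  linarith

theorem st_ARR : ST_ARR := by
  intro L _ _ n φ g0 g nrm G Z c lam0 hG hZ hLD h0 hl hc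
  have hE0 : 0 < Real.exp G := Real.exp_pos _
  have hE1 : 1 ≤ Real.exp G := Real.one_le_exp (by linarith)
  have hle : ∀ a : ℤ × (Fin n → ℤ), nrm a ≤ nrm a + Real.exp G * |∑ i, c i * (a.2 i : ℝ)| := by
    intro a
    have : 0 ≤ Real.exp G * |∑ i, c i * (a.2 i : ℝ)| := by positivity
    linarith
  have hyadd : ∀ a b : ℤ × (Fin n → ℤ), ∑ i, c i * ((a + b).2 i : ℝ) =
      ∑ i, c i * (a.2 i : ℝ) + ∑ i, c i * (b.2 i : ℝ) := by
    intro a b
    rw [← Finset.sum_add_distrib]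
    refine Finset.sum_congr rfl fun i _ => ?_
    rw [Prod.snd_add, Pi.add_apply]; push_cast; ring
  have hysmul : ∀ (k : ℤ) (a : ℤ × (Fin n → ℤ)), ∑ i, c i * ((k • a).2 i : ℝ) =
      k * ∑ i, c i * (a.2 i : ℝ) := by
    intro k a
    rw [Finset.mul_sum]
    refine Finset.sum_congr rfl fun i _ => ?_
    rw [Prod.smul_snd, Pi.smul_apply, smul_eq_mul]; push_cast; ring
  constructor
  · refine ⟨hLD.ne0, hLD.ne, ?_, ?_, ?_, ?_, ?_, ?_, ?_, hLD.tor, ?_⟩
    · intro a b
      rw [hyadd]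
      have h1 := hLD.add a b
      have h2 := mul_le_mul_of_nonneg_left
        (abs_add_le (∑ i, c i * (a.2 i : ℝ)) (∑ i, c i * (b.2 i : ℝ))) hE0.le
      linarith
    · intro k a
      rw [hysmul, hLD.smul, abs_mul]; ring
    · intro a τ
      exact le_trans (hLD.conj a τ) (Real.exp_le_exp.mpr (hle a))
    · intro a
      obtain ⟨q, hq0, hq, hi⟩ := hLD.den a
      exact ⟨q, hq0, le_trans hq (Real.exp_le_exp.mpr (hle a)), hi⟩
    · intro a
      exact le_trans (hLD.co0 a) (hle a)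
    · intro a i
      exact le_trans (hLD.coo a i) (mul_le_mul_of_nonneg_left (hle a) hZ)
    · intro ρ
      exact (hLD.fin ρ).subset fun a ha => le_trans (hle a) ha
    · intro a ha h1
      exact le_trans (hLD.ker a ha h1) (hle a)
  · intro ρ hρ
    have hfin' : {a : ℤ × (Fin n → ℤ) | nrm a + Real.exp G * |∑ i, c i * (a.2 i : ℝ)| ≤
        4 * ρ}.Finite := (hLD.fin (4 * ρ)).subset fun a ha => le_trans (hle a) ha
    rcases eq_or_lt_of_le hρ with hρ0 | hρ0
    · -- `ρ = 0`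
      subst hρ0
      have h1 : {a : ℤ × (Fin n → ℤ) | nrm a ≤ 0} ⊆ {0} := by
        intro a ha
        have ha' : nrm a ≤ 0 := ha
        have h2 : |(a.1 : ℝ)| ≤ 0 := le_trans (hLD.co0 a) ha'
        have h3 : a.1 = 0 := by
          have := abs_nonpos_iff.mp h2
          exact_mod_cast this
        have h4 : ∀ i, a.2 i = 0 := by
          intro i
          have h5 := hLD.coo a i
          have h6 : Z * nrm a ≤ 0 := mul_nonpos_of_nonneg_of_nonpos hZ ha'
          have := abs_nonpos_iff.mp (le_trans h5 h6)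
          exact_mod_cast this
        exact Prod.ext h3 (funext h4)
      have h2 : ({a : ℤ × (Fin n → ℤ) | nrm a ≤ 0}.ncard : ℝ) ≤ 1 := by
        have := Set.ncard_le_ncard h1 (Set.finite_singleton _)
        rw [Set.ncard_singleton] at this
        exact_mod_cast this
      have h3 : (1 : ℝ) ≤ ({a : ℤ × (Fin n → ℤ) |
          nrm a + Real.exp G * |∑ i, c i * (a.2 i : ℝ)| ≤ 4 * 0}.ncard : ℝ) := by
        have h4 : 0 < {a : ℤ × (Fin n → ℤ) |
          nrm a + Real.exp G * |∑ i, c i * (a.2 i : ℝ)| ≤ 4 * 0}.ncard := by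
          rw [Set.ncard_pos hfin']
          refine ⟨0, ?_⟩
          have h5 : nrm 0 = 0 := by
            have := hLD.smul 0 0
            rw [zero_smul] at this
            rw [this]; norm_num
          change nrm 0 + Real.exp G * |∑ i, c i * (((0 : ℤ × (Fin n → ℤ)).2 i : ℤ) : ℝ)| ≤ 4 * 0
          rw [h5]
          simp
        exact_mod_cast h4
      nlinarith
    -- `ρ > 0`
    classical
    set S := (hLD.fin ρ).toFinset with hS
    set N := {a : ℤ × (Fin n → ℤ) | nrm a + Real.exp G * |∑ i, c i * (a.2 i : ℝ)| ≤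
        4 * ρ}.ncard with hN
    let f : ℤ × (Fin n → ℤ) → ℤ := fun a => ⌊(∑ i, c i * (a.2 i : ℝ) + 2 * ρ) * Real.exp G / ρ⌋
    have hmem : ∀ a, a ∈ S ↔ nrm a ≤ ρ := by
      intro a; rw [hS, Set.Finite.mem_toFinset]; rfl
    have himg : S.image f ⊆ Finset.Icc 0 ⌊4 * Real.exp G⌋ := by
      intro x hx
      rw [Finset.mem_image] at hx
      obtain ⟨a, ha, rfl⟩ := hx
      rw [hmem] at ha
      have h1 := arr_yle φ g0 g nrm G Z hLD c lam0 h0 hl hc a
      have h2 := arr_yle φ g0 g nrm G Z hLD c lam0 h0 hl hc ((-1 : ℤ) • a)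
      rw [hysmul, hLD.smul] at h2
      norm_num at h2
      rw [Finset.mem_Icc]
      constructor
      · apply Int.floor_nonneg.mpr
        have : 0 ≤ ∑ i, c i * (a.2 i : ℝ) + 2 * ρ := by linarith
        positivity
      · apply Int.floor_le_floor
        rw [div_le_iff₀ hρ0]
        have : ∑ i, c i * (a.2 i : ℝ) + 2 * ρ ≤ 4 * ρ := by linarith
        calc (∑ i, c i * (a.2 i : ℝ) + 2 * ρ) * Real.exp G ≤ (4 * ρ) * Real.exp G :=
              mul_le_mul_of_nonneg_right this hE0.le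
          _ = 4 * Real.exp G * ρ := by ring
    have hfib : ∀ x ∈ S.image f, (S.filter fun a => f a = x).card ≤ N := by
      intro x hx
      rw [Finset.mem_image] at hx
      obtain ⟨a0, ha0, hfa0⟩ := hx
      rw [hmem] at ha0
      have h1 : ((S.filter fun a => f a = x).image (fun a => a - a0) : Set (ℤ × (Fin n → ℤ))) ⊆
          {a : ℤ × (Fin n → ℤ) | nrm a + Real.exp G * |∑ i, c i * (a.2 i : ℝ)| ≤ 4 * ρ} := by
        intro b hb
        rw [Finset.mem_coe, Finset.mem_image] at hb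
        obtain ⟨a, ha, rfl⟩ := hb
        rw [Finset.mem_filter, hmem] at ha
        obtain ⟨ha1, ha2⟩ := ha
        have e1 : nrm (a - a0) ≤ 2 * ρ := by
          rw [sub_eq_add_neg]
          have := hLD.add a (-a0)
          rw [arr_nrm_neg nrm hLD.smul] at this
          linarith
        have e2 : ∑ i, c i * ((a - a0).2 i : ℝ) =
            ∑ i, c i * (a.2 i : ℝ) - ∑ i, c i * (a0.2 i : ℝ) := by
          have h := hyadd (a - a0) a0
          rw [sub_add_cancel] at h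
          linarith
        have e3 : f a = f a0 := by rw [ha2, hfa0]
        have e4 := Int.abs_sub_lt_one_of_floor_eq_floor e3
        have e5 : (∑ i, c i * (a.2 i : ℝ) + 2 * ρ) * Real.exp G / ρ -
            (∑ i, c i * (a0.2 i : ℝ) + 2 * ρ) * Real.exp G / ρ =
            (∑ i, c i * ((a - a0).2 i : ℝ)) * Real.exp G / ρ := by
          rw [e2]; ring
        rw [e5, abs_div, abs_mul, abs_of_pos hE0, abs_of_pos hρ0, div_lt_one hρ0] at e4
        change nrm (a - a0) + Real.exp G * |∑ i, c i * ((a - a0).2 i : ℝ)| ≤ 4 * ρ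
        rw [mul_comm (Real.exp G)]
        linarith
      have h2 := Set.ncard_le_ncard h1 hfin'
      rw [Set.ncard_coe_finset, Finset.card_image_of_injective _ (sub_left_injective)] at h2
      exact h2
    have hcard := Finset.card_le_mul_card_image S N hfib
    have hcard2 := Finset.card_le_card himg
    rw [Int.card_Icc] at hcard2
    have hfl : 0 ≤ ⌊4 * Real.exp G⌋ := Int.floor_nonneg.mpr (by positivity)
    have h5 : (((⌊4 * Real.exp G⌋ + 1 - 0).toNat : ℕ) : ℝ) ≤ 5 * Real.exp G := by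
      have : (((⌊4 * Real.exp G⌋ + 1 - 0).toNat : ℕ) : ℝ) =
          ((⌊4 * Real.exp G⌋ + 1 - 0 : ℤ) : ℝ) := by
        rw [← Int.cast_natCast, Int.toNat_of_nonneg (by omega)]
      rw [this]
      push_cast
      linarith [Int.floor_le (4 * Real.exp G)]
    have h6 : {a : ℤ × (Fin n → ℤ) | nrm a ≤ ρ}.ncard = S.card := by
      rw [hS, Set.ncard_eq_toFinset_card _ (hLD.fin ρ)]
    have h7 : ((S.image f).card : ℝ) ≤ 5 * Real.exp G :=
      le_trans (by exact_mod_cast hcard2) h5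
    rw [h6]
    have hN0 : (0 : ℝ) ≤ N := Nat.cast_nonneg _
    calc (S.card : ℝ) ≤ (N : ℝ) * ((S.image f).card : ℝ) := by exact_mod_cast hcard
      _ ≤ (N : ℝ) * (5 * Real.exp G) := mul_le_mul_of_nonneg_left h7 hN0
      _ ≤ 20 * Real.exp G * (N : ℝ) := by nlinarith

end Pool.Helper99.SZ
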