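import Mathlib
import Pool.Agent.Helper99.SZ.Stmts3

set_option autoImplicit false

namespace Pool.Helper99.SZ

open NumberField

theorem st_C4L (hCU1 : ST_CU1) : ST_C4L := by
  intro K _ _ β a b c κ hcf σ hσ S hS hlog
  obtain ⟨-, -, -, -, hκ0, hF⟩ := hCU1.2 K β a b c κ hcf
  obtain ⟨-, hsum, hsq, -⟩ := hF ℂ σ hσ
  have hκ0' : (κ : K) ≠ 0 := by
    intro h; exact hκ0 (by exact_mod_cast h)
  have hb : ∀ i, ‖σ i (κ : K)‖ ≤ Real.exp S := by
    intro i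
    have hpos : 0 < ‖σ i (κ : K)‖ := norm_pos_iff.mpr ((map_ne_zero _).mpr hκ0')
    rw [← Real.exp_log hpos]
    exact Real.exp_le_exp.mpr (abs_le.mp (hlog i)).2
  have hk : ∀ i, σ i (κ : K) = (a : ℂ) ^ 2 - 4 * b - 2 * a * σ i β - 3 * (σ i β) ^ 2 := by
    intro i
    rw [hcf.kap]
    simp only [map_sub, map_mul, map_pow, map_intCast, map_ofNat]
  have h0 := hsq 0 1 2 (by decide) (by decide) (by decide)
  have h1 := hsq 1 0 2 (by decide) (by decide) (by decide)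
  have h2 := hsq 2 0 1 (by decide) (by decide) (by decide)
  have hid : 2 * ((a : ℂ) ^ 2 - 3 * b) = σ 0 (κ : K) + σ 1 (κ : K) + σ 2 (κ : K) := by
    have k0 := hk 0
    have k1 := hk 1
    have k2 := hk 2
    have h3 : σ 0 β + σ 1 β + σ 2 β = -(a : ℂ) := hsum
    have e2 : σ 2 β = -(a : ℂ) - σ 0 β - σ 1 β := by rw [← h3]; ring
    rw [e2] at h0 h1 k2
    linear_combination (1 / 2 : ℂ) * (h0 + h1 + h2) - (1 / 2 : ℂ) * (k0 + k1 + k2)
  by_cases hz : (a ^ 2 - 3 * b : ℤ) = 0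
  · rw [hz]; simp; linarith
  have hzr : ((a ^ 2 - 3 * b : ℤ) : ℝ) ≠ 0 := by exact_mod_cast hz
  have hn : |((a ^ 2 - 3 * b : ℤ) : ℝ)| ≤ (3 / 2) * Real.exp S := by
    have e : |((a ^ 2 - 3 * b : ℤ) : ℝ)| = ‖(a : ℂ) ^ 2 - 3 * b‖ := by
      rw [← Real.norm_eq_abs, ← Complex.norm_real]
      push_cast
      rfl
    rw [e]
    have e2 : (2 : ℝ) * ‖(a : ℂ) ^ 2 - 3 * b‖ = ‖σ 0 (κ : K) + σ 1 (κ : K) + σ 2 (κ : K)‖ := by
      rw [← hid, norm_mul]; norm_num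
    have e3 := norm_add₃_le (a := σ 0 (κ : K)) (b := σ 1 (κ : K)) (c := σ 2 (κ : K))
    linarith [hb 0, hb 1, hb 2]
  have hp : 0 < |((a ^ 2 - 3 * b : ℤ) : ℝ)| := abs_pos.mpr hzr
  calc Real.log |((a ^ 2 - 3 * b : ℤ) : ℝ)| ≤ Real.log ((3 / 2) * Real.exp S) :=
        Real.log_le_log hp hn
    _ = Real.log (3 / 2) + S := by
        rw [Real.log_mul (by norm_num) (Real.exp_pos _).ne', Real.log_exp]
    _ ≤ 2 + S := by
        have := Real.log_le_sub_one_of_pos (show (0 : ℝ) < 3 / 2 by norm_num)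
        linarith

end Pool.Helper99.SZ
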