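import Mathlib
import Pool.Agent.Helper99.SZ.Stmts3

set_option autoImplicit false

namespace Pool.Helper99.SZ

open NumberField

/-- a product of `m` distinct naturals `≥ 2` is at least `(m + 1)!` -/
lemma cla_fact (s : Finset ℕ) (hs : ∀ x ∈ s, 2 ≤ x) : (s.card + 1).factorial ≤ ∏ x ∈ s, x := by
  induction s using Finset.induction_on_max with
  | empty => simp
  | insert a s ha ih =>
    have hna : a ∉ s := fun h => lt_irrefl _ (ha a h)
    rw [Finset.card_insert_of_notMem hna, Finset.prod_insert hna]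
    have hc : s.card + 2 ≤ a := by
      have hsub : s ⊆ Finset.Ico 2 a := by
        intro x hx
        rw [Finset.mem_Ico]
        exact ⟨hs x (Finset.mem_insert_of_mem hx), ha x hx⟩
      have h1 := Finset.card_le_card hsub
      rw [Nat.card_Ico] at h1
      have h2 := hs a (Finset.mem_insert_self _ _)
      omega
    have ih' := ih (fun x hx => hs x (Finset.mem_insert_of_mem hx))
    calc (s.card + 1 + 1).factorial = (s.card + 2) * (s.card + 1).factorial := by
          rw [Nat.factorial_succ]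
      _ ≤ a * ∏ x ∈ s, x := Nat.mul_le_mul hc ih'

lemma cla_fact_le (m : ℕ) (R : ℝ) (p : Fin m → ℕ) (hi : Function.Injective p)
    (hp : ∀ j, (p j).Prime) (hR : ∑ j, Real.log (p j) ≤ R) :
    ((m + 1).factorial : ℝ) ≤ Real.exp R := by
  have h1 := cla_fact (Finset.univ.image p) (by
    intro x hx
    rw [Finset.mem_image] at hx
    obtain ⟨j, -, rfl⟩ := hx
    exact (hp j).two_le)
  rw [Finset.card_image_of_injective _ hi, Finset.card_univ, Fintype.card_fin,
    Finset.prod_image (fun x _ y _ h => hi h)] at h1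
  have h2 : ((∏ j, p j : ℕ) : ℝ) = Real.exp (∑ j, Real.log (p j)) := by
    rw [Real.exp_sum, Nat.cast_prod]
    refine Finset.prod_congr rfl fun j _ => ?_
    rw [Real.exp_log]
    exact_mod_cast (hp j).pos
  calc ((m + 1).factorial : ℝ) ≤ ((∏ j, p j : ℕ) : ℝ) := by exact_mod_cast h1
    _ = Real.exp (∑ j, Real.log (p j)) := h2
    _ ≤ Real.exp R := Real.exp_le_exp.mpr hR

/-- `e ^ (m + 1) ≤ (e^2) ...` : the bound `(m + 1) ≤ 2 R` -/
lemma cla_m (m : ℕ) (R : ℝ) (hR1 : 1 ≤ R) (h : ((m + 1).factorial : ℝ) ≤ Real.exp R) :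
    (m : ℝ) + 1 ≤ 2 * R := by
  by_contra hc
  push Not at hc
  -- `R < (m + 1) / 2`, `(m+1)! ≤ exp R < exp ((m+1)/2)`
  have h1 : ((m + 1).factorial : ℝ) < Real.exp (((m : ℝ) + 1) / 2) := by
    refine lt_of_le_of_lt h (Real.exp_lt_exp.mpr (by linarith))
  have he : Real.exp (1 / 2) ≤ 2 := by
    have h2 : Real.exp (1 / 2) ^ 2 = Real.exp 1 := by
      rw [← Real.exp_nat_mul]; norm_num
    have h3 := Real.exp_one_lt_d9
    have h4 := Real.exp_pos (1 / 2)
    nlinarith
  have hE : ∀ k : ℕ, 2 ≤ k → Real.exp (((k : ℝ) + 1) / 2) ≤ ((k + 1).factorial : ℝ) := by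
    intro k hk
    induction k, hk using Nat.le_induction with
    | base =>
      have h3 := Real.exp_one_lt_d9
      have h5 : Real.exp ((((2 : ℕ) : ℝ) + 1) / 2) = Real.exp 1 * Real.exp (1 / 2) := by
        rw [← Real.exp_add]; norm_num
      rw [h5]
      have h6 : (((2 + 1).factorial : ℕ) : ℝ) = 6 := by norm_num [Nat.factorial]
      rw [h6]
      have h7 := Real.exp_pos (1 / 2)
      nlinarith
    | succ k hk ih =>
      have h5 : Real.exp (((((k + 1 : ℕ) : ℝ)) + 1) / 2) =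
          Real.exp (1 / 2) * Real.exp (((k : ℝ) + 1) / 2) := by
        rw [← Real.exp_add]; congr 1; push_cast; ring
      rw [h5, Nat.factorial_succ (k + 1)]
      push_cast
      refine mul_le_mul (le_trans he ?_) ih (Real.exp_pos _).le (by positivity)
      have : (2 : ℝ) ≤ k := by exact_mod_cast hk
      linarith
  rcases Nat.lt_or_ge m 2 with hm | hm
  · have : (m : ℝ) ≤ 1 := by exact_mod_cast (by omega : m ≤ 1)
    linarith
  · exact absurd (hE m hm) (not_le.mpr h1)

/-- `C ^ m ≤ C2 e^{δ R}` -/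
lemma cla_pow (δ C1 : ℝ) (hδ : 0 < δ) (hC1 : 1 ≤ C1) : ∃ C2 : ℝ, 1 ≤ C2 ∧ ∀ (m : ℕ) (R : ℝ),
    ((m + 1).factorial : ℝ) ≤ Real.exp R → C1 ^ m ≤ C2 * Real.exp (δ * R) := by
  have hX := FloorSemiring.tendsto_pow_div_factorial_atTop (C1 ^ (1 / δ))
  obtain ⟨B, hB⟩ := hX.bddAbove_range
  have hC0 : 0 < C1 := by linarith
  refine ⟨max 1 ((max B 0) ^ δ), le_max_left _ _, ?_⟩
  intro m R hmR
  have h1 : (C1 ^ (1 / δ)) ^ m / (m.factorial : ℝ) ≤ max B 0 :=
    le_trans (hB ⟨m, rfl⟩) (le_max_left _ _)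
  have hf : (0 : ℝ) < (m.factorial : ℝ) := by exact_mod_cast m.factorial_pos
  have h2 : (C1 ^ (1 / δ)) ^ m ≤ max B 0 * Real.exp R := by
    rw [div_le_iff₀ hf] at h1
    refine le_trans h1 (mul_le_mul_of_nonneg_left ?_ (le_max_right _ _))
    refine le_trans ?_ hmR
    exact_mod_cast Nat.factorial_le (Nat.le_succ m)
  have h3 : ((C1 ^ (1 / δ)) ^ m) ^ δ ≤ (max B 0 * Real.exp R) ^ δ :=
    Real.rpow_le_rpow (by positivity) h2 hδ.le
  have h4 : ((C1 ^ (1 / δ)) ^ m) ^ δ = C1 ^ m := by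
    rw [← Real.rpow_natCast, ← Real.rpow_mul hC0.le, ← Real.rpow_mul hC0.le, ← Real.rpow_natCast]
    congr 1
    field_simp
  rw [h4, Real.mul_rpow (le_max_right _ _) (Real.exp_pos _).le, ← Real.exp_mul] at h3
  refine le_trans h3 ?_
  rw [mul_comm R δ]
  exact mul_le_mul_of_nonneg_right (le_max_right _ _) (Real.exp_pos _).le

/-- `∏ log p ≤ C2 e^{δ R}` -/
lemma cla_prod (δ : ℝ) (hδ : 0 < δ) : ∃ C2 : ℝ, 1 ≤ C2 ∧ ∀ (m : ℕ) (R : ℝ) (p : Fin m → ℕ),
    Function.Injective p → (∀ j, (p j).Prime) → ∑ j, Real.log (p j) ≤ R →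
    ∏ j, Real.log (p j) ≤ C2 * Real.exp (δ * R) := by
  obtain ⟨C2, hC2, h⟩ := cla_pow (δ / 2) (max 1 (2 / δ)) (by linarith) (le_max_left _ _)
  refine ⟨C2, hC2, ?_⟩
  intro m R p hi hp hR
  have hlog : ∀ j, Real.log (p j) ≤ max 1 (2 / δ) * Real.exp ((δ / 2) * Real.log (p j)) := by
    intro j
    have h1 := Real.add_one_le_exp ((δ / 2) * Real.log (p j))
    have h2 : (δ / 2) * Real.log (p j) ≤ Real.exp ((δ / 2) * Real.log (p j)) := by linarith
    have h3 : Real.log (p j) = (2 / δ) * ((δ / 2) * Real.log (p j)) := by field_simp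
    calc Real.log (p j) = (2 / δ) * ((δ / 2) * Real.log (p j)) := h3
      _ ≤ (2 / δ) * Real.exp ((δ / 2) * Real.log (p j)) :=
          mul_le_mul_of_nonneg_left h2 (by positivity)
      _ ≤ _ := mul_le_mul_of_nonneg_right (le_max_right _ _) (Real.exp_pos _).le
  calc ∏ j, Real.log (p j) ≤ ∏ j, (max 1 (2 / δ) * Real.exp ((δ / 2) * Real.log (p j))) := by
        refine Finset.prod_le_prod (fun j _ => Real.log_natCast_nonneg _) (fun j _ => hlog j)
    _ = (max 1 (2 / δ)) ^ m * Real.exp ((δ / 2) * ∑ j, Real.log (p j)) := by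
        rw [Finset.prod_mul_distrib, Finset.prod_const, Finset.card_univ, Fintype.card_fin,
          ← Real.exp_sum, Finset.mul_sum]
    _ ≤ (C2 * Real.exp ((δ / 2) * R)) * Real.exp ((δ / 2) * R) := by
        refine mul_le_mul (h m R (cla_fact_le m R p hi hp hR)) ?_ (Real.exp_pos _).le (by positivity)
        exact Real.exp_le_exp.mpr (mul_le_mul_of_nonneg_left hR (by linarith))
    _ = C2 * Real.exp (δ * R) := by
        rw [mul_assoc, ← Real.exp_add]; congr 2; ring

theorem st_CLA : ST_CLA := by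
  intro δ C1 hδ hC1
  obtain ⟨Ca, hCa, ha⟩ := cla_pow δ C1 hδ hC1
  obtain ⟨Cb, hCb, hb⟩ := cla_prod δ hδ
  refine ⟨max Ca (max Cb 17), le_max_of_le_left hCa, ?_⟩
  intro m R p hR1 hi hp hR
  have hf := cla_fact_le m R p hi hp hR
  have hm := cla_m m R hR1 hf
  have hR0 : 0 < R := by linarith
  refine ⟨hm, ?_, ?_, ?_, ?_⟩
  · exact le_trans (ha m R hf) (mul_le_mul_of_nonneg_right (le_max_left _ _) (Real.exp_pos _).le)
  · exact le_trans (hb m R p hi hp hR)
      (mul_le_mul_of_nonneg_right (le_trans (le_max_left _ _) (le_max_right _ _))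
        (Real.exp_pos _).le)
  · have h1 : ((m + 5).factorial : ℝ) ≤ ((m + 1).factorial : ℝ) * ((m : ℝ) + 5) ^ 4 := by
      have e : (m + 5).factorial = (m + 1).factorial * ((m + 2) * (m + 3) * (m + 4) * (m + 5)) := by
        rw [Nat.factorial_succ (m + 4), Nat.factorial_succ (m + 3), Nat.factorial_succ (m + 2),
          Nat.factorial_succ (m + 1)]
        ring
      rw [e]
      push_cast
      refine mul_le_mul_of_nonneg_left ?_ (Nat.cast_nonneg _)
      have hm0 : (0 : ℝ) ≤ m := Nat.cast_nonneg m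
      have e4 : ((m : ℝ) + 5) ^ 4 = ((m : ℝ) + 5) * (m + 5) * (m + 5) * (m + 5) := by ring
      rw [e4]
      gcongr <;> linarith
    have hfp : (0 : ℝ) < ((m + 5).factorial : ℝ) := by exact_mod_cast Nat.factorial_pos _
    have hfp1 : (0 : ℝ) < ((m + 1).factorial : ℝ) := by exact_mod_cast Nat.factorial_pos _
    have hm0 : (0 : ℝ) ≤ m := Nat.cast_nonneg m
    have hm5 : (0 : ℝ) < (m : ℝ) + 5 := by linarith
    have h2 : Real.log ((m + 5).factorial : ℝ) ≤ Real.log ((m + 1).factorial : ℝ) +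
        4 * Real.log ((m : ℝ) + 5) := by
      refine le_trans (Real.log_le_log hfp h1) ?_
      rw [Real.log_mul hfp1.ne' (by positivity), Real.log_pow]
      push_cast
      exact le_rfl
    have h3 : Real.log ((m + 1).factorial : ℝ) ≤ R := by
      rw [Real.log_le_iff_le_exp hfp1]; exact hf
    have h4 : Real.log ((m : ℝ) + 5) ≤ (m : ℝ) + 1 + 3 * 0 + (Real.log 5 + 0) := by
      have e : (m : ℝ) + 5 = 5 * (1 + m / 5) := by ring
      rw [e, Real.log_mul (by norm_num) (by positivity)]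
      have := Real.log_le_sub_one_of_pos (show (0 : ℝ) < 1 + m / 5 by positivity)
      linarith
    have h5 : Real.log 5 ≤ 2 := by
      rw [Real.log_le_iff_le_exp (by norm_num)]
      have h2 : Real.exp 2 = Real.exp 1 * Real.exp 1 := by rw [← Real.exp_add]; norm_num
      have h3 := Real.exp_one_gt_d9
      rw [h2]; nlinarith
    have h6 : Real.log ((m + 5).factorial : ℝ) ≤ 17 * R := by linarith
    have h7 : (17 : ℝ) ≤ max Ca (max Cb 17) := le_trans (le_max_right _ _) (le_max_right _ _)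
    exact le_trans h6 (mul_le_mul_of_nonneg_right h7 hR0.le)
  · have h1 := Real.pow_div_factorial_le_exp R hR0.le m
    have hfp : (0 : ℝ) < (m.factorial : ℝ) := by exact_mod_cast m.factorial_pos
    rw [div_le_iff₀ hfp] at h1
    have h2 : (m.factorial : ℝ) ≤ Real.exp R :=
      le_trans (by exact_mod_cast Nat.factorial_le (Nat.le_succ m)) hf
    calc R ^ m ≤ Real.exp R * (m.factorial : ℝ) := h1
      _ ≤ Real.exp R * Real.exp R := mul_le_mul_of_nonneg_left h2 (Real.exp_pos _).le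
      _ = Real.exp (2 * R) := by rw [← Real.exp_add]; congr 1; ring
      _ ≤ Real.exp (4 * R) := Real.exp_le_exp.mpr (by linarith)

end Pool.Helper99.SZ
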