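import Mathlib
import Pool.Agent.Helper99.SZ.Stmts3

set_option autoImplicit false

namespace Pool.Helper99.SZ

open NumberField

lemma grw_box (n : ℕ) (nrm : ℤ × (Fin n → ℤ) → ℝ) (Z : ℝ)
    (h1 : ∀ a : ℤ × (Fin n → ℤ), |(a.1 : ℝ)| ≤ nrm a)
    (h2 : ∀ (a : ℤ × (Fin n → ℤ)) (i : Fin n), |((a.2 i : ℤ) : ℝ)| ≤ Z * nrm a)
    (ρ : ℝ) (hρ : 1 ≤ ρ) :
    ({a : ℤ × (Fin n → ℤ) | nrm a ≤ ρ}.ncard : ℝ) ≤ 3 * (2 * |Z| + 1) ^ n * ρ ^ (n + 1) := by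
  have hρ0 : (0 : ℝ) ≤ ρ := by linarith
  have hZ0 : (0 : ℝ) ≤ |Z| := abs_nonneg _
  have hB : {a : ℤ × (Fin n → ℤ) | nrm a ≤ ρ} ⊆
      ((Finset.Icc (-⌊ρ⌋) ⌊ρ⌋ ×ˢ
        Fintype.piFinset (fun _ : Fin n => Finset.Icc (-⌊|Z| * ρ⌋) ⌊|Z| * ρ⌋) :
          Finset (ℤ × (Fin n → ℤ))) : Set (ℤ × (Fin n → ℤ))) := by
    intro a ha
    simp only [Set.mem_setOf_eq] at ha
    rw [Finset.mem_coe, Finset.mem_product, Fintype.mem_piFinset]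
    have hn0 : 0 ≤ nrm a := le_trans (abs_nonneg _) (h1 a)
    refine ⟨?_, fun i => ?_⟩
    · rw [Finset.mem_Icc]
      have h := abs_le.mp (le_trans (h1 a) ha)
      constructor
      · have : -a.1 ≤ ⌊ρ⌋ := Int.le_floor.mpr (by push_cast; linarith [h.1])
        omega
      · exact Int.le_floor.mpr h.2
    · rw [Finset.mem_Icc]
      have h3 : |((a.2 i : ℤ) : ℝ)| ≤ |Z| * ρ := by
        refine le_trans (h2 a i) ?_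
        refine le_trans (mul_le_mul_of_nonneg_right (le_abs_self Z) hn0) ?_
        exact mul_le_mul_of_nonneg_left ha hZ0
      have h := abs_le.mp h3
      constructor
      · have : -a.2 i ≤ ⌊|Z| * ρ⌋ := Int.le_floor.mpr (by push_cast; linarith [h.1])
        omega
      · exact Int.le_floor.mpr h.2
  have hc := Set.ncard_le_ncard hB (Finset.finite_toSet _)
  rw [Set.ncard_coe_finset, Finset.card_product, Fintype.card_piFinset] at hc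
  simp only [Int.card_Icc, Finset.prod_const, Finset.card_univ, Fintype.card_fin] at hc
  have hf0 : 0 ≤ ⌊ρ⌋ := Int.floor_nonneg.mpr hρ0
  have hf1 : 0 ≤ ⌊|Z| * ρ⌋ := Int.floor_nonneg.mpr (mul_nonneg hZ0 hρ0)
  have e1 : (((⌊ρ⌋ + 1 - -⌊ρ⌋).toNat : ℕ) : ℝ) ≤ 3 * ρ := by
    have : (((⌊ρ⌋ + 1 - -⌊ρ⌋).toNat : ℕ) : ℝ) = ((⌊ρ⌋ + 1 - -⌊ρ⌋ : ℤ) : ℝ) := by
      rw [← Int.cast_natCast, Int.toNat_of_nonneg (by omega)]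
    rw [this]
    push_cast
    linarith [Int.floor_le ρ]
  have e2 : (((⌊|Z| * ρ⌋ + 1 - -⌊|Z| * ρ⌋).toNat : ℕ) : ℝ) ≤ (2 * |Z| + 1) * ρ := by
    have : (((⌊|Z| * ρ⌋ + 1 - -⌊|Z| * ρ⌋).toNat : ℕ) : ℝ) =
        ((⌊|Z| * ρ⌋ + 1 - -⌊|Z| * ρ⌋ : ℤ) : ℝ) := by
      rw [← Int.cast_natCast, Int.toNat_of_nonneg (by omega)]
    rw [this]
    push_cast
    linarith [Int.floor_le (|Z| * ρ)]
  calc ({a : ℤ × (Fin n → ℤ) | nrm a ≤ ρ}.ncard : ℝ)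
      ≤ (((⌊ρ⌋ + 1 - -⌊ρ⌋).toNat * (⌊|Z| * ρ⌋ + 1 - -⌊|Z| * ρ⌋).toNat ^ n : ℕ) : ℝ) := by
        exact_mod_cast hc
    _ = (((⌊ρ⌋ + 1 - -⌊ρ⌋).toNat : ℕ) : ℝ) * (((⌊|Z| * ρ⌋ + 1 - -⌊|Z| * ρ⌋).toNat : ℕ) : ℝ) ^ n := by
        push_cast; ring
    _ ≤ (3 * ρ) * ((2 * |Z| + 1) * ρ) ^ n := by
        apply mul_le_mul e1 (pow_le_pow_left₀ (Nat.cast_nonneg _) e2 n) (by positivity)
          (by positivity)
    _ = 3 * (2 * |Z| + 1) ^ n * ρ ^ (n + 1) := by rw [mul_pow]; ring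

theorem st_GRW : ST_GRW := by
  intro n M nrm Z X0 ρ0 h1 h2 h3
  by_contra hM
  push Not at hM
  have hZ0 : (0 : ℝ) ≤ |Z| := abs_nonneg _
  have hX0 : (0 : ℝ) ≤ |X0| := abs_nonneg _
  obtain ⟨ρ, hρ⟩ : ∃ ρ : ℝ, ρ = max ρ0 (|X0| * (3 * (2 * |Z| + 1) ^ n) + 1) := ⟨_, rfl⟩
  have hρ0 : ρ0 ≤ ρ := by rw [hρ]; exact le_max_left _ _
  have hρC : |X0| * (3 * (2 * |Z| + 1) ^ n) + 1 ≤ ρ := by rw [hρ]; exact le_max_right _ _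
  have hC0 : 0 ≤ |X0| * (3 * (2 * |Z| + 1) ^ n) := by positivity
  have hρ1 : 1 ≤ ρ := by linarith
  have key := grw_box n nrm Z h1 h2 ρ hρ1
  have h4 := h3 ρ hρ0
  have e1 : ρ ^ (n + 2) ≤ ρ ^ M := pow_le_pow_right₀ hρ1 hM
  have e2 : X0 * ({a : ℤ × (Fin n → ℤ) | nrm a ≤ ρ}.ncard : ℝ) ≤
      |X0| * (3 * (2 * |Z| + 1) ^ n * ρ ^ (n + 1)) :=
    le_trans (mul_le_mul_of_nonneg_right (le_abs_self X0) (Nat.cast_nonneg _))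
      (mul_le_mul_of_nonneg_left key hX0)
  have e3 : ρ ^ (n + 1) * ρ ≤ ρ ^ (n + 1) * (|X0| * (3 * (2 * |Z| + 1) ^ n)) := by
    calc ρ ^ (n + 1) * ρ = ρ ^ (n + 2) := by ring
      _ ≤ |X0| * (3 * (2 * |Z| + 1) ^ n * ρ ^ (n + 1)) := le_trans e1 (le_trans h4 e2)
      _ = ρ ^ (n + 1) * (|X0| * (3 * (2 * |Z| + 1) ^ n)) := by ring
  have e4 := le_of_mul_le_mul_left e3 (by positivity)
  linarith

end Pool.Helper99.SZ
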